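import Pool.Agent.helper97.GD.SpecB

set_option autoImplicit false

open Filter

namespace Pool.Agent.GD

theorem BEN_listsum {R A : Type} [AddCommMonoid R] (l : List A) (g : A → R) :
    (l.map g).sum = ∑ i : Fin l.length, g (l.get i) := by
  rw [← List.sum_ofFn]
  congr 1
  have h : l = List.ofFn l.get := (List.ofFn_get l).symm
  calc l.map g = (List.ofFn l.get).map g := by rw [← h]
    _ = List.ofFn (fun i => g (l.get i)) := by rw [List.map_ofFn]; rfl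

theorem BEN_sm_abs (U : Ultrafilter ℕ) (N : ℕ → ℕ) (f : ℕ → ℤ) (hf : Sm U N f) : Sm U N fun k => |f k| := by
  intro j
  filter_upwards [hf j] with k hk
  rw [abs_abs]
  exact hk

theorem BEN_sm_sum (hGSM : GSM_stmt) (U : Ultrafilter ℕ) (N : ℕ → ℕ) (hN : Tendsto N (U : Filter ℕ) atTop)
    (l : List ((ℕ → ℤ) × (ℕ → ℤ))) (hl : ∀ x ∈ l, Sm U N x.1) : Sm U N fun k => (l.map fun x => |x.1 k|).sum := by
  induction l with
  | nil =>
    simpa using (hGSM U N hN).1 0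
  | cons a l ih =>
    have h1 := BEN_sm_abs U N a.1 (hl a (List.mem_cons_self ..))
    have h2 := ih fun x hx => hl x (List.mem_cons_of_mem _ hx)
    have h3 := ((hGSM U N hN).2.1 _ _ h1 h2).1
    simpa [List.map_cons, List.sum_cons] using h3

theorem BEN_caseA (a D F d : ℕ) (hF : 0 < F) (hD : 0 < D) (hd : D ^ d ≤ F) (h : F ∣ D * a) :
    (F / Nat.gcd a F) ^ d ≤ F := by
  have hg : 0 < Nat.gcd a F := Nat.gcd_pos_of_pos_right _ hF
  have h1 : F / Nat.gcd a F ∣ D := by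
    have hcop : Nat.Coprime (F / Nat.gcd a F) (a / Nat.gcd a F) := (Nat.coprime_div_gcd_div_gcd hg).symm
    refine hcop.dvd_of_dvd_mul_right ?_
    have h2 : Nat.gcd a F * (F / Nat.gcd a F) ∣ Nat.gcd a F * (D * (a / Nat.gcd a F)) := by
      rw [Nat.mul_div_cancel' (Nat.gcd_dvd_right a F)]
      have h3 : Nat.gcd a F * (D * (a / Nat.gcd a F)) = D * a := by
        rw [Nat.mul_left_comm, Nat.mul_div_cancel' (Nat.gcd_dvd_left a F)]
      rw [h3]
      exact h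
    exact Nat.dvd_of_mul_dvd_mul_left hg h2
  exact le_trans (Nat.pow_le_pow_left (Nat.le_of_dvd hD h1) d) hd

theorem BEN_caseB (g d N S : ℕ) (h : g ^ (4 * d) ≤ S * 4 ^ N) (hS : S ≤ 2 ^ N) : g ^ d ≤ 2 ^ N + 1 := by
  by_contra hcon
  have h1 : 2 ^ N + 1 < g ^ d := not_le.1 hcon
  have h2 : (2 ^ N) ^ 4 < (g ^ d) ^ 4 := Nat.pow_lt_pow_left (by omega) (by norm_num)
  have h3 : (g ^ d) ^ 4 = g ^ (4 * d) := by rw [← pow_mul, mul_comm]
  have h4 : S * 4 ^ N ≤ 2 ^ N * 4 ^ N := Nat.mul_le_mul_right _ hS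
  have h5 : 2 ^ N * 4 ^ N ≤ (2 ^ N) ^ 4 := by
    have h6 : (4 : ℕ) ^ N = 2 ^ N * 2 ^ N := by
      rw [← mul_pow]
      norm_num
    rw [h6]
    have h7 : (2 ^ N) ^ 4 = 2 ^ N * (2 ^ N * 2 ^ N) * 2 ^ N := by ring
    rw [h7]
    exact Nat.le_mul_of_pos_right _ (by positivity)
  omega

theorem BEN (hGSM : GSM_stmt) (hBLV : BLV_stmt) : BEN_stmt := by
  intro U m hm n f hf d hd
  have hN : Tendsto (fun k => 2 ^ m k) (U : Filter ℕ) atTop := by
    refine tendsto_atTop_mono (fun k => ?_) hm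
    exact (Nat.lt_two_pow_self).le
  obtain ⟨D, l, hD, hD0, hl, hsv⟩ := (hBLV U _ hN n).2.2.1 f hf
  have hS := BEN_sm_sum hGSM U _ hN l (fun x hx => (hl x hx).1)
  filter_upwards [hD0, hsv, hD d, hS ((4 * d) ^ l.length)] with k h0 h1 h2 h3
  have hFe : ((2 : ℤ) ^ (2 ^ m k) + 1).natAbs = 2 ^ (2 ^ m k) + 1 := by
    have h : ((2 : ℤ) ^ (2 ^ m k) + 1) = ((2 ^ (2 ^ m k) + 1 : ℕ) : ℤ) := by push_cast; rfl
    rw [h, Int.natAbs_natCast]
  have hgcd : Int.gcd (f k) (2 ^ (2 ^ m k) + 1) = Nat.gcd (f k).natAbs (2 ^ (2 ^ m k) + 1) := by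
    rw [Int.gcd_def, hFe]
  rw [hgcd]
  by_cases hdv : (2 : ℤ) ^ (2 ^ m k) + 1 ∣ D k * f k
  · right
    refine BEN_caseA _ (D k).natAbs _ d (by positivity) (Int.natAbs_pos.2 h0) ?_ ?_
    · have h4 : (((D k).natAbs ^ d : ℕ) : ℤ) ≤ ((2 ^ (2 ^ m k) : ℕ) : ℤ) := by
        push_cast
        exact h2
      have h5 : (D k).natAbs ^ d ≤ 2 ^ (2 ^ m k) := by exact_mod_cast h4
      omega
    · have h6 := Int.natAbs_dvd_natAbs.2 hdv
      rw [hFe, Int.natAbs_mul] at h6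
      exact h6
  · left
    have hsum : sv l k = ∑ i : Fin l.length, (l.get i).1 k * 2 ^ ((l.get i).2 k).toNat := by
      unfold sv
      exact BEN_listsum l fun x => x.1 k * 2 ^ (x.2 k).toNat
    have hg1 : Nat.gcd (f k).natAbs (2 ^ (2 ^ m k) + 1) ∣ 2 ^ (2 ^ m k) + 1 := Nat.gcd_dvd_right _ _
    have hg2 : ((Nat.gcd (f k).natAbs (2 ^ (2 ^ m k) + 1) : ℕ) : ℤ) ∣
        ∑ i ∈ (Finset.univ : Finset (Fin l.length)), (l.get i).1 k * 2 ^ ((l.get i).2 k).toNat := by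
      rw [← hsum, ← h1]
      refine Dvd.dvd.mul_left ?_ _
      exact Int.natCast_dvd.2 (Nat.gcd_dvd_left _ _)
    have hg3 : ¬ ((2 : ℤ) ^ (2 ^ m k) + 1 ∣
        ∑ i ∈ (Finset.univ : Finset (Fin l.length)), (l.get i).1 k * 2 ^ ((l.get i).2 k).toNat) := by
      rw [← hsum, ← h1]
      exact hdv
    have hmain := Pool.Agent.helper8.SF.main Finset.univ _ _ (m k) _ (4 * d) hg1 hg2 hg3 (by omega)
    rw [Finset.card_univ, Fintype.card_fin] at hmain
    refine BEN_caseB _ d (2 ^ m k) _ hmain ?_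
    have h7 : (((∑ i : Fin l.length, ((l.get i).1 k).natAbs : ℕ)) : ℤ) = (l.map fun x => |x.1 k|).sum := by
      rw [BEN_listsum l fun x => |x.1 k|]
      push_cast
      rfl
    have h8 : (((∑ i : Fin l.length, ((l.get i).1 k).natAbs) ^ ((4 * d) ^ l.length) : ℕ) : ℤ) ≤ ((2 ^ (2 ^ m k) : ℕ) : ℤ) := by
      rw [Nat.cast_pow, h7]
      refine le_trans ?_ (by push_cast; exact h3)
      exact le_of_eq_of_le rfl (pow_le_pow_left₀ (by
        rw [← h7]; positivity) (le_abs_self _) _)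
    exact_mod_cast h8

end Pool.Agent.GD
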