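import Pool.Agent.helper8.GD.Spec
import Pool.Agent.helper61.TG.WT6

/-!
# Project GD, module TR2: the circle method, abstract form
-/

set_option autoImplicit false

namespace GD

open Finset
open Pool.Agent.helper74.TG (ee)
open Pool.Agent.helper74.TG.h61 (ee_add parseval)

/-- the coefficient of the difference of the two products -/
noncomputable def TR2_F (X : ℕ) (a₁ a₂ b₁ b₂ : ℕ → ℝ) (N : ℕ) : ℝ :=
  ∑ m ∈ Ioc 0 X, ∑ n ∈ Ioc 0 X, if m + n = N then a₁ m * a₂ n - b₁ m * b₂ n else 0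

theorem TR2_cv (X : ℕ) (f g : ℕ → ℝ) (N : ℕ) (hN : N ≤ X) :
    (∑ m ∈ Ioc 0 X, ∑ n ∈ Ioc 0 X, if m + n = N then f m * g n else 0) = cv N f g := by
  have h1 : ∀ m ∈ Ioc 0 X, (∑ n ∈ Ioc 0 X, if m + n = N then f m * g n else 0) =
      if m ∈ Ioo 0 N then f m * g (N - m) else 0 := by
    intro m hm
    rw [mem_Ioc] at hm
    by_cases h : m ∈ Ioo 0 N
    · rw [if_pos h]
      rw [mem_Ioo] at h
      rw [Finset.sum_eq_single (N - m)]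
      · rw [if_pos (by omega)]
      · intro n _ hne
        rw [if_neg (by omega)]
      · intro hn
        exact absurd (mem_Ioc.2 (by omega)) hn
    · rw [if_neg h]
      rw [mem_Ioo] at h
      refine Finset.sum_eq_zero fun n hn => ?_
      rw [mem_Ioc] at hn
      rw [if_neg (by omega)]
  rw [Finset.sum_congr rfl h1, ← Finset.sum_filter]
  unfold cv
  refine Finset.sum_congr ?_ fun _ _ => rfl
  ext m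
  rw [mem_filter, mem_Ioc, mem_Ioo]
  omega

theorem TR2_FN (X : ℕ) (a₁ a₂ b₁ b₂ : ℕ → ℝ) (N : ℕ) (hN : N ≤ X) :
    TR2_F X a₁ a₂ b₁ b₂ N = cv N a₁ a₂ - cv N b₁ b₂ := by
  rw [← TR2_cv X a₁ a₂ N hN, ← TR2_cv X b₁ b₂ N hN, ← Finset.sum_sub_distrib]
  unfold TR2_F
  refine Finset.sum_congr rfl fun m _ => ?_
  rw [← Finset.sum_sub_distrib]
  refine Finset.sum_congr rfl fun n _ => ?_
  split_ifs <;> ring

/-- exponential sum -/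
noncomputable def TR2_S (X : ℕ) (f : ℕ → ℝ) (α : ℝ) : ℂ := ∑ n ∈ Ioc 0 X, (f n : ℂ) * ee (n * α)

theorem TR2_sub (X : ℕ) (f g : ℕ → ℝ) (α : ℝ) :
    ∑ n ∈ Ioc 0 X, ((f n - g n : ℝ) : ℂ) * ee (n * α) = TR2_S X f α - TR2_S X g α := by
  unfold TR2_S
  rw [← Finset.sum_sub_distrib]
  refine Finset.sum_congr rfl fun n _ => ?_
  push_cast
  ring

theorem TR2_prod (X : ℕ) (a₁ a₂ b₁ b₂ : ℕ → ℝ) (α : ℝ) :
    ∑ N ∈ range (2 * X + 1), (TR2_F X a₁ a₂ b₁ b₂ N : ℂ) * ee (N * α) =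
      TR2_S X a₁ α * TR2_S X a₂ α - TR2_S X b₁ α * TR2_S X b₂ α := by
  unfold TR2_S
  rw [Finset.sum_mul_sum, Finset.sum_mul_sum, ← Finset.sum_sub_distrib]
  have h1 : ∀ N ∈ range (2 * X + 1), (TR2_F X a₁ a₂ b₁ b₂ N : ℂ) * ee (N * α) =
      ∑ m ∈ Ioc 0 X, ∑ n ∈ Ioc 0 X,
        if m + n = N then ((a₁ m * a₂ n - b₁ m * b₂ n : ℝ) : ℂ) * ee (N * α) else 0 := by
    intro N _
    unfold TR2_F
    push_cast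
    rw [Finset.sum_mul]
    refine Finset.sum_congr rfl fun m _ => ?_
    rw [Finset.sum_mul]
    refine Finset.sum_congr rfl fun n _ => ?_
    split_ifs <;> simp
  rw [Finset.sum_congr rfl h1, Finset.sum_comm]
  refine Finset.sum_congr rfl fun m hm => ?_
  rw [Finset.sum_comm, ← Finset.sum_sub_distrib]
  refine Finset.sum_congr rfl fun n hn => ?_
  rw [mem_Ioc] at hm hn
  rw [Finset.sum_ite_eq, if_pos (mem_range.2 (by omega))]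
  have : ee (((m + n : ℕ) : ℝ) * α) = ee (m * α) * ee (n * α) := by
    rw [← ee_add]
    congr 1
    push_cast
    ring
  rw [this]
  push_cast
  ring

theorem TR2_parseval (X : ℕ) (f : ℕ → ℝ) :
    ∑ k ∈ range (2 * X + 1), ‖TR2_S X f ((k : ℝ) / ((2 * X + 1 : ℕ) : ℝ))‖ ^ 2 =
      ((2 * X + 1 : ℕ) : ℝ) * ∑ n ∈ Ioc 0 X, f n ^ 2 := by
  have h := parseval (2 * X + 1) (Ioc 0 X) (fun x hx => by rw [mem_Ioc] at hx; omega)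
    (fun n => (f n : ℂ))
  unfold TR2_S
  rw [h]
  congr 1
  refine Finset.sum_congr rfl fun n _ => ?_
  rw [Complex.norm_real, Real.norm_eq_abs, sq_abs]

theorem TR2_alg (x y : ℂ) : ‖x + y‖ ^ 2 ≤ 2 * ‖x‖ ^ 2 + 2 * ‖y‖ ^ 2 := by
  have h := norm_add_le x y
  have h0 := norm_nonneg (x + y)
  nlinarith [sq_nonneg (‖x‖ - ‖y‖)]

theorem TR2_point (A₁ A₂ B₁ B₂ : ℂ) (ε : ℝ) (h1 : ‖A₁ - B₁‖ ≤ ε)
    (h2 : ‖A₂ - B₂‖ ≤ ε ∨ ‖B₁‖ ≤ ε) :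
    ‖A₁ * A₂ - B₁ * B₂‖ ^ 2 ≤ ε ^ 2 * (6 * ‖A₂‖ ^ 2 + 2 * ‖B₁‖ ^ 2 + 4 * ‖B₂‖ ^ 2) := by
  have e : A₁ * A₂ - B₁ * B₂ = (A₁ - B₁) * A₂ + B₁ * (A₂ - B₂) := by ring
  have h3 := TR2_alg ((A₁ - B₁) * A₂) (B₁ * (A₂ - B₂))
  rw [← e, norm_mul, norm_mul, mul_pow, mul_pow] at h3
  have h4 : ‖A₁ - B₁‖ ^ 2 ≤ ε ^ 2 := pow_le_pow_left₀ (norm_nonneg _) h1 2
  have h5 : ‖A₁ - B₁‖ ^ 2 * ‖A₂‖ ^ 2 ≤ ε ^ 2 * ‖A₂‖ ^ 2 :=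
    mul_le_mul_of_nonneg_right h4 (by positivity)
  have h6 : ‖B₁‖ ^ 2 * ‖A₂ - B₂‖ ^ 2 ≤ ε ^ 2 * (‖B₁‖ ^ 2 + (2 * ‖A₂‖ ^ 2 + 2 * ‖B₂‖ ^ 2)) := by
    have h7 := TR2_alg A₂ (-B₂)
    rw [← sub_eq_add_neg, norm_neg] at h7
    rcases h2 with h | h
    · have h8 : ‖A₂ - B₂‖ ^ 2 ≤ ε ^ 2 := pow_le_pow_left₀ (norm_nonneg _) h 2
      have h9 : ‖B₁‖ ^ 2 * ‖A₂ - B₂‖ ^ 2 ≤ ‖B₁‖ ^ 2 * ε ^ 2 :=
        mul_le_mul_of_nonneg_left h8 (by positivity)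
      have h10 : 0 ≤ ε ^ 2 * (2 * ‖A₂‖ ^ 2 + 2 * ‖B₂‖ ^ 2) := by positivity
      linarith
    · have h8 : ‖B₁‖ ^ 2 ≤ ε ^ 2 := pow_le_pow_left₀ (norm_nonneg _) h 2
      have h9 : ‖B₁‖ ^ 2 * ‖A₂ - B₂‖ ^ 2 ≤ ε ^ 2 * (2 * ‖A₂‖ ^ 2 + 2 * ‖B₂‖ ^ 2) :=
        mul_le_mul h8 h7 (by positivity) (by positivity)
      have h10 : 0 ≤ ε ^ 2 * ‖B₁‖ ^ 2 := by positivity
      linarith
  nlinarith [h3, h5, h6]

theorem TR2 : TR2_stmt := by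
  intro X a₁ a₂ b₁ b₂ ε S hε h1 h2 hS₁ hS₂ hS₃
  set P : ℕ := 2 * X + 1 with hP
  have hP0 : (0 : ℝ) < (P : ℝ) := by
    have : 0 < P := by omega
    exact_mod_cast this
  have hpt : ∀ α : ℝ, ‖∑ N ∈ range P, (TR2_F X a₁ a₂ b₁ b₂ N : ℂ) * ee (N * α)‖ ^ 2 ≤
      ε ^ 2 * (6 * ‖TR2_S X a₂ α‖ ^ 2 + 2 * ‖TR2_S X b₁ α‖ ^ 2 + 4 * ‖TR2_S X b₂ α‖ ^ 2) := by
    intro α
    rw [hP, TR2_prod]
    refine TR2_point _ _ _ _ ε ?_ ?_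
    · rw [← TR2_sub]
      exact h1 α
    · rw [← TR2_sub]
      exact h2 α
  have hpar := parseval P (range P) (fun x hx => mem_range.1 hx)
    (fun N => (TR2_F X a₁ a₂ b₁ b₂ N : ℂ))
  have hle : (P : ℝ) * ∑ N ∈ range P, ‖(TR2_F X a₁ a₂ b₁ b₂ N : ℂ)‖ ^ 2 ≤
      P * (12 * ε ^ 2 * S) := by
    rw [← hpar]
    calc ∑ k ∈ range P, ‖∑ N ∈ range P, (TR2_F X a₁ a₂ b₁ b₂ N : ℂ) * ee (N * ((k : ℝ) / P))‖ ^ 2
        ≤ ∑ k ∈ range P, ε ^ 2 * (6 * ‖TR2_S X a₂ ((k : ℝ) / P)‖ ^ 2 +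
            2 * ‖TR2_S X b₁ ((k : ℝ) / P)‖ ^ 2 + 4 * ‖TR2_S X b₂ ((k : ℝ) / P)‖ ^ 2) :=
          Finset.sum_le_sum fun k _ => hpt _
      _ = ε ^ 2 * (6 * ∑ k ∈ range P, ‖TR2_S X a₂ ((k : ℝ) / P)‖ ^ 2 +
            2 * ∑ k ∈ range P, ‖TR2_S X b₁ ((k : ℝ) / P)‖ ^ 2 +
            4 * ∑ k ∈ range P, ‖TR2_S X b₂ ((k : ℝ) / P)‖ ^ 2) := by
          rw [← Finset.mul_sum, Finset.sum_add_distrib, Finset.sum_add_distrib, Finset.mul_sum,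
            Finset.mul_sum, Finset.mul_sum]
      _ = ε ^ 2 * (6 * (P * ∑ n ∈ Ioc 0 X, a₂ n ^ 2) + 2 * (P * ∑ n ∈ Ioc 0 X, b₁ n ^ 2) +
            4 * (P * ∑ n ∈ Ioc 0 X, b₂ n ^ 2)) := by
          rw [hP, TR2_parseval, TR2_parseval, TR2_parseval]
      _ ≤ ε ^ 2 * (6 * (P * S) + 2 * (P * S) + 4 * (P * S)) := by
          gcongr
      _ = _ := by ring
  have hle2 : ∑ N ∈ range P, ‖(TR2_F X a₁ a₂ b₁ b₂ N : ℂ)‖ ^ 2 ≤ 12 * ε ^ 2 * S :=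
    le_of_mul_le_mul_left hle hP0
  calc ∑ N ∈ Icc 1 X, (cv N a₁ a₂ - cv N b₁ b₂) ^ 2
      = ∑ N ∈ Icc 1 X, ‖(TR2_F X a₁ a₂ b₁ b₂ N : ℂ)‖ ^ 2 := by
        refine Finset.sum_congr rfl fun N hN => ?_
        rw [mem_Icc] at hN
        rw [← TR2_FN X a₁ a₂ b₁ b₂ N hN.2, Complex.norm_real, Real.norm_eq_abs, sq_abs]
    _ ≤ ∑ N ∈ range P, ‖(TR2_F X a₁ a₂ b₁ b₂ N : ℂ)‖ ^ 2 := by
        refine Finset.sum_le_sum_of_subset_of_nonneg ?_ fun _ _ _ => by positivity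
        intro N hN
        rw [mem_Icc] at hN
        exact mem_range.2 (by omega)
    _ ≤ _ := hle2

end GD
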